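import Pool.Agent.Helper46.PM.DenseSpot
import Pool.Agent.Helper67.PM.Final

/-!
# MP_34cda4_co: graphs without dense spots

For every bipartite graph `H` there are `ε, γ > 0` such that every graph of large average degree `d`
in which no two sets of at least `γ d` vertices span a pair of density at least `ε` has `H` as a
pivot-minor. Hence the linear bound asked for in the problem holds for `H` if and only if it holds
in the dense case, and `K_{t,s}`-free graphs without `H` have average degree at most `K ^ t * s`.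
-/

set_option autoImplicit false

namespace Pool.Agent.Results.MP_34cda4_co.DenseSpot

open Finset
open scoped Classical

/-- `B` arises from `A` by pivoting at an edge `uv`: the adjacency of `x` and `y` is toggled if they
lie in two different sets among `N(u) ∩ N(v)`, `N(u) \ (N(v) ∪ {v})`, `N(v) \ (N(u) ∪ {u})`. (The
exchange of the labels `u` and `v` is omitted, it gives an isomorphic graph.) -/
def PivotStep {V : Type} (A B : SimpleGraph V) : Prop :=
  ∃ u v : V, A.Adj u v ∧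
    B = SimpleGraph.fromRel (fun x y => Xor' (A.Adj x y)
      ((((A.Adj u x ∧ A.Adj v x) ∧ (A.Adj u y ∧ ¬ A.Adj v y ∧ y ≠ v)) ∨
        ((A.Adj u x ∧ ¬ A.Adj v x ∧ x ≠ v) ∧ (A.Adj u y ∧ A.Adj v y)) ∨
        ((A.Adj u x ∧ A.Adj v x) ∧ (A.Adj v y ∧ ¬ A.Adj u y ∧ y ≠ u)) ∨
        ((A.Adj v x ∧ ¬ A.Adj u x ∧ x ≠ u) ∧ (A.Adj u y ∧ A.Adj v y)) ∨
        ((A.Adj u x ∧ ¬ A.Adj v x ∧ x ≠ v) ∧ (A.Adj v y ∧ ¬ A.Adj u y ∧ y ≠ u)) ∨
        ((A.Adj v x ∧ ¬ A.Adj u x ∧ x ≠ u) ∧ (A.Adj u y ∧ ¬ A.Adj v y ∧ y ≠ v)))))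

/-- `H` is a pivot-minor of `G`. -/
def IsPivotMinor {W V : Type} (H : SimpleGraph W) (G : SimpleGraph V) : Prop :=
  ∃ G' : SimpleGraph V, Relation.ReflTransGen PivotStep G G' ∧ Nonempty (H ↪g G')

/-- The number of ordered pairs `(u, w)` in `U × W` that are adjacent. -/
noncomputable def e {V : Type} (G : SimpleGraph V) (U W : Finset V) : ℕ :=
  ((U ×ˢ W).filter fun p => G.Adj p.1 p.2).card

/-- `G` contains no complete bipartite subgraph `K_{t,s}`. -/
def NoK {V : Type} (G : SimpleGraph V) (t s : ℕ) : Prop :=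
  ¬ ∃ A B : Finset V, A.card = t ∧ B.card = s ∧ ∀ a ∈ A, ∀ b ∈ B, G.Adj a b

/-- The linear bound of the problem holds for `H`. -/
def LinearBound {W : Type} (H : SimpleGraph W) : Prop :=
  ∃ C : ℝ, 0 < C ∧ ∀ s : ℕ, 0 < s → ∀ (V : Type) [Fintype V] (G : SimpleGraph V),
    NoK G s s → ¬ IsPivotMinor H G → (e G univ univ : ℝ) ≤ C * s * Fintype.card V

/-- Its dense case: graphs with quadratically many edges and without `H` contain complete bipartite
subgraphs with both sides of linear size. -/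
def DenseCase {W : Type} (H : SimpleGraph W) : Prop :=
  ∀ ε : ℝ, 0 < ε → ∃ c : ℝ, 0 < c ∧ ∀ (V : Type) [Fintype V] (G : SimpleGraph V),
    ¬ IsPivotMinor H G → ε * (Fintype.card V : ℝ) ^ 2 ≤ e G univ univ →
      ∃ A B : Finset V, c * Fintype.card V ≤ A.card ∧ c * Fintype.card V ≤ B.card ∧
        ∀ a ∈ A, ∀ b ∈ B, G.Adj a b

theorem result {W : Type} [Fintype W] (H : SimpleGraph W) (hH : H.Colorable 2) :
    (∃ ε γ d₀ : ℝ, 0 < ε ∧ 0 < γ ∧ 0 < d₀ ∧ ∀ (V : Type) [Fintype V] [Nonempty V]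
      (G : SimpleGraph V) (d : ℝ), d₀ ≤ d → d * Fintype.card V ≤ e G univ univ →
        (∀ U X : Finset V, γ * d ≤ U.card → γ * d ≤ X.card →
          (e G U X : ℝ) < ε * (U.card * X.card)) →
        IsPivotMinor H G) ∧
    (LinearBound H ↔ DenseCase H) ∧
    (∃ K : ℝ, 0 < K ∧ ∀ t s : ℕ, 0 < t → 0 < s → ∀ (V : Type) [Fintype V] (G : SimpleGraph V),
      NoK G t s → ¬ IsPivotMinor H G → (e G univ univ : ℝ) ≤ K ^ t * s * Fintype.card V) := by
  have h : Pool.Agent.Helper35.PM.DenseSpotStatement H := Pool.Agent.Helper35.PM.dense_spot H hH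
  exact ⟨h, Pool.Agent.Helper35.PM.linear_iff_dense H h, Pool.Agent.Helper35.PM.kts_bound H h⟩

end Pool.Agent.Results.MP_34cda4_co.DenseSpot
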