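import Pool.Agent.Helper32.Piv.Main

/-!
# Trees of perturbations of graphic and cographic matroids

A binary matroid on the finite set `E` is given by its cocycle space, a subspace `C` of
`E → ZMod 2` (the row space of a representing matrix). `cutSpace x y` is the cocycle space of the
cycle matroid of the graph with edges `e`, joining `x e` and `y e`; its orthogonal complement is the
cocycle space of the bond matroid of this graph. `IsPerturbed k G` says that `G` is the fundamental
graph, with respect to some basis, of a binary matroid on the vertex set of `G` whose cocycle space
agrees with that of a graphic or cographic matroid up to codimension `k`.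
-/

set_option autoImplicit false

namespace Pool.Agent.Results.MP_34cda4_co.PerturbedTrees

open Pool.Agent.Helper32.Piv

/-- Every graph with a tree-like decomposition into parts with at most `q` outer neighbourhoods
whose node graphs are fundamental graphs of rank-`k` perturbations of graphic or cographic matroids
satisfies the linear bound: for every `s`, every induced subgraph without `K_{s,s}` has average
degree at most `(5 + 2 * q + 14 * 4 ^ k * (q + 3) * (1 + 2 * q)) * s`. -/
theorem result {E : Type*} [Fintype E] (k q : ℕ) (G : SimpleGraph E)
    (h : Built (IsPerturbed k) q G Finset.univ) :
    LinearBound (5 + 2 * q + 14 * 4 ^ k * (q + 3) * (1 + 2 * q)) G :=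
  linearBound_of_built_perturbed h

end Pool.Agent.Results.MP_34cda4_co.PerturbedTrees
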