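import Pool.Agent.Helper32.PD.DenseQ

/-!
# MP_34cda4_co: graphs without a fixed bipartite pivot-minor

For every bipartite graph `H` there is `C > 0` such that every `K_{s,s}`-free graph without a
pivot-minor isomorphic to `H` has average degree at most `C * s`. The pivot and the pivot-minors
are those of the problem, word by word.
-/

set_option autoImplicit false

namespace Pool.Agent.Results.MP_34cda4_co.PivotMinorLinear

open SimpleGraph

/-- The sets `A = N(u) ∩ N(v)`, `B = N(u) \ (N(v) ∪ {v})` and `C = N(v) \ (N(u) ∪ {u})`. -/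
def part {V : Type} (G : SimpleGraph V) (u v : V) : Fin 3 → Set V :=
  ![G.neighborSet u ∩ G.neighborSet v, G.neighborSet u \ (G.neighborSet v ∪ {v}),
    G.neighborSet v \ (G.neighborSet u ∪ {u})]

/-- `x` and `y` lie in two different sets among `A, B, C`. -/
def Separated {V : Type} (G : SimpleGraph V) (u v x y : V) : Prop :=
  ∃ i j : Fin 3, i ≠ j ∧ x ∈ part G u v i ∧ y ∈ part G u v j

theorem part_unique {V : Type} {G : SimpleGraph V} {u v x : V} {i j : Fin 3}
    (hi : x ∈ part G u v i) (hj : x ∈ part G u v j) : i = j := by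
  fin_cases i <;> fin_cases j <;> simp_all [part]

/-- `G` with the adjacency of `x` and `y` toggled whenever `x` and `y` lie in two different sets
among `A, B, C`. -/
def toggled {V : Type} (G : SimpleGraph V) (u v : V) : SimpleGraph V where
  Adj x y := (G.Adj x y ∧ ¬ Separated G u v x y) ∨ (¬ G.Adj x y ∧ Separated G u v x y)
  symm := ⟨by
    intro x y h
    have h1 : Separated G u v x y ↔ Separated G u v y x :=
      ⟨fun ⟨i, j, hij, hx, hy⟩ => ⟨j, i, hij.symm, hy, hx⟩,
        fun ⟨i, j, hij, hx, hy⟩ => ⟨j, i, hij.symm, hy, hx⟩⟩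
    rwa [G.adj_comm y x, ← h1]⟩
  loopless := ⟨by
    rintro x (⟨h, -⟩ | ⟨-, ⟨i, j, hij, hx, hy⟩⟩)
    · exact G.loopless.irrefl x h
    · exact hij (part_unique hx hy)⟩

open scoped Classical in
/-- The pivot `G ∧ uv`: toggle the adjacencies, then exchange the labels of `u` and `v`. -/
noncomputable def pivot {V : Type} (G : SimpleGraph V) (u v : V) : SimpleGraph V :=
  (toggled G u v).comap (Equiv.swap u v)

/-- `H` is a pivot-minor of `G`: it is isomorphic to a graph obtained from `G` by a finite sequence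
of pivots at edges and vertex deletions. -/
inductive IsPivotMinor {W : Type} (H : SimpleGraph W) : (V : Type) → SimpleGraph V → Prop
  | of_iso {V : Type} (G : SimpleGraph V) : Nonempty (H ≃g G) → IsPivotMinor H V G
  | of_pivot {V : Type} (G : SimpleGraph V) (u v : V) : G.Adj u v →
      IsPivotMinor H V (pivot G u v) → IsPivotMinor H V G
  | of_delete {V : Type} (G : SimpleGraph V) (v : V) :
      IsPivotMinor H {x : V // x ≠ v} (G.comap Subtype.val) → IsPivotMinor H V G

/-- The average degree `2|E(G)| / |V(G)|`. -/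
noncomputable def averageDegree {V : Type} (G : SimpleGraph V) : ℝ :=
  2 * (G.edgeSet.ncard : ℝ) / (Nat.card V : ℝ)

theorem part_iso {V V' : Type} {G : SimpleGraph V} {G' : SimpleGraph V'} (e : G ≃g G') (u v x : V)
    (i : Fin 3) : e x ∈ part G' (e u) (e v) i ↔ x ∈ part G u v i := by
  fin_cases i <;> simp [part, e.map_adj_iff]

theorem separated_iso {V V' : Type} {G : SimpleGraph V} {G' : SimpleGraph V'} (e : G ≃g G')
    (u v x y : V) : Separated G' (e u) (e v) (e x) (e y) ↔ Separated G u v x y := by
  simp only [Separated, part_iso]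

/-- pivoting commutes with isomorphisms -/
theorem pivot_iso {V V' : Type} {G : SimpleGraph V} {G' : SimpleGraph V'} (e : G ≃g G')
    (u v : V) : Nonempty (pivot G u v ≃g pivot G' (e u) (e v)) := by
  classical
  refine ⟨⟨e.toEquiv, ?_⟩⟩
  intro x y
  have h : ∀ z : V, Equiv.swap (e u) (e v) (e z) = e (Equiv.swap u v z) := by
    intro z
    rw [Equiv.swap_apply_def, Equiv.swap_apply_def, e.injective.eq_iff, e.injective.eq_iff]
    split_ifs <;> rfl
  change (toggled G' (e u) (e v)).Adj (Equiv.swap (e u) (e v) (e x))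
    (Equiv.swap (e u) (e v) (e y)) ↔ (toggled G u v).Adj (Equiv.swap u v x) (Equiv.swap u v y)
  rw [h, h]
  simp only [toggled, separated_iso, e.map_adj_iff]

/-- pivot-minors are invariant under isomorphisms of the host -/
theorem IsPivotMinor.congr {W : Type} {H : SimpleGraph W} {V : Type} {G : SimpleGraph V}
    (h : IsPivotMinor H V G) : ∀ (V' : Type) (G' : SimpleGraph V'), Nonempty (G ≃g G') →
      IsPivotMinor H V' G' := by
  induction h with
  | of_iso G h =>
    rintro V' G' ⟨e⟩
    obtain ⟨f⟩ := h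
    exact .of_iso G' ⟨f.trans e⟩
  | of_pivot G u v huv _ ih =>
    rintro V' G' ⟨e⟩
    exact .of_pivot G' (e u) (e v) (e.map_adj_iff.2 huv) (ih _ _ (pivot_iso e u v))
  | of_delete G v _ ih =>
    rintro V' G' ⟨e⟩
    refine .of_delete G' (e v) (ih _ _ ⟨⟨e.toEquiv.subtypeEquiv fun x => ?_, ?_⟩⟩)
    · exact e.injective.ne_iff.symm
    · intro x y
      exact e.map_adj_iff

/-- induced subgraphs of finite graphs are pivot-minors -/
theorem of_embedding {W : Type} (H : SimpleGraph W) (n : ℕ) : ∀ (V : Type) [Finite V]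
    (G : SimpleGraph V), Nat.card V = n → Nonempty (H ↪g G) → IsPivotMinor H V G := by
  induction n with
  | zero =>
    rintro V _ G hV ⟨f⟩
    have : IsEmpty V := (Nat.card_eq_zero.1 hV).resolve_right (fun h => not_finite V)
    exact .of_iso G ⟨⟨Equiv.ofBijective f ⟨f.injective, fun x => isEmptyElim x⟩, f.map_adj_iff⟩⟩
  | succ n ih =>
    rintro V _ G hV ⟨f⟩
    by_cases hf : Function.Surjective f
    · exact .of_iso G ⟨⟨Equiv.ofBijective f ⟨f.injective, hf⟩, f.map_adj_iff⟩⟩
    · simp only [Function.Surjective, not_forall, not_exists] at hf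
      obtain ⟨v, hv⟩ := hf
      refine .of_delete G v (ih _ _ ?_ ⟨⟨⟨fun w => ⟨f w, hv w⟩, ?_⟩, ?_⟩⟩)
      · classical
        have := Fintype.ofFinite V
        rw [Nat.card_eq_fintype_card] at hV ⊢
        rw [Fintype.card_subtype_compl, hV]
        simp
      · intro a b hab
        exact f.injective (Subtype.ext_iff.1 hab)
      · intro a b
        exact f.map_adj_iff

theorem toggle_iff {V : Type} (A : SimpleGraph V) (u v x y : V) :
    Pool.Agent.Helper32.Piv.PivotToggle A u v x y ↔ Separated A u v x y := by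
  constructor
  · rintro (h | h | h | h | h | h)
    · exact ⟨0, 1, by decide, by simp [part]; tauto, by simp [part]; tauto⟩
    · exact ⟨1, 0, by decide, by simp [part]; tauto, by simp [part]; tauto⟩
    · exact ⟨0, 2, by decide, by simp [part]; tauto, by simp [part]; tauto⟩
    · exact ⟨2, 0, by decide, by simp [part]; tauto, by simp [part]; tauto⟩
    · exact ⟨1, 2, by decide, by simp [part]; tauto, by simp [part]; tauto⟩
    · exact ⟨2, 1, by decide, by simp [part]; tauto, by simp [part]; tauto⟩
  · rintro ⟨i, j, hij, hx, hy⟩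
    unfold Pool.Agent.Helper32.Piv.PivotToggle
    fin_cases i <;> fin_cases j <;> simp [part] at hij hx hy ⊢ <;> tauto

/-- the pivots without exchange of labels are the toggled graphs -/
theorem toggled_eq {V : Type} (A : SimpleGraph V) (u v : V) :
    Pool.Agent.Helper32.Piv.pivotG A u v = toggled A u v := by
  ext x y
  rw [Pool.Agent.Helper32.Piv.pivotG_adj, toggle_iff]
  constructor
  · rintro ⟨-, h | h⟩
    · exact Or.inl h
    · exact Or.inr ⟨h.2, h.1⟩
  · intro h
    refine ⟨h.ne, ?_⟩
    rcases h with h | h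
    · exact Or.inl h
    · exact Or.inr ⟨h.2, h.1⟩

theorem isPivotMinor_of_step {W : Type} {H : SimpleGraph W} {V : Type} {A B : SimpleGraph V}
    (h : Pool.Agent.Helper32.Piv.PivotStep A B) (hB : IsPivotMinor H V B) :
    IsPivotMinor H V A := by
  classical
  obtain ⟨u, v, huv, rfl⟩ := h
  refine .of_pivot A u v huv (hB.congr V _ ?_)
  change Nonempty (Pool.Agent.Helper32.Piv.pivotG A u v ≃g _)
  rw [toggled_eq]
  refine ⟨⟨Equiv.swap u v, ?_⟩⟩
  intro x y
  change (toggled A u v).Adj (Equiv.swap u v (Equiv.swap u v x))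
    (Equiv.swap u v (Equiv.swap u v y)) ↔ _
  rw [Equiv.swap_apply_self, Equiv.swap_apply_self]

theorem isPivotMinor_of_reach {W : Type} {H : SimpleGraph W} {V : Type} [Finite V]
    {A B : SimpleGraph V} (h : Relation.ReflTransGen Pool.Agent.Helper32.Piv.PivotStep A B)
    (hB : Nonempty (H ↪g B)) : IsPivotMinor H V A := by
  induction h using Relation.ReflTransGen.head_induction_on with
  | refl => exact of_embedding H _ V B rfl hB
  | head h _ ih => exact isPivotMinor_of_step h ih

theorem result (W : Type) [Finite W] (H : SimpleGraph W) (hH : H.IsBipartite) :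
    ∃ C : ℝ, 0 < C ∧ ∀ s : ℕ, 0 < s → ∀ (V : Type) [Finite V] [Nonempty V] (G : SimpleGraph V),
      (completeBipartiteGraph (Fin s) (Fin s)).Free G → ¬ IsPivotMinor H V G →
        averageDegree G ≤ C * s := by
  classical
  have := Fintype.ofFinite W
  obtain ⟨C, hC, h⟩ := Pool.Agent.Helper35.PM.frozen_of_dense W H hH
    (Pool.Agent.Helper32.PD.Fin.denseQ H hH)
  refine ⟨C, hC, fun s hs V _ _ G hG hH' => ?_⟩
  have := Fintype.ofFinite V
  have h1 := h s hs V G (fun ⟨f, hf⟩ => hG ⟨⟨f, hf⟩⟩)
    (fun ⟨G', hG', hH''⟩ => hH' (isPivotMinor_of_reach hG' hH''))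
  have h2 : (2 * G.edgeSet.ncard : ℝ) = ∑ x, (G.degree x : ℝ) := by
    rw [← Nat.cast_sum, G.sum_degrees_eq_twice_card_edges, Nat.cast_mul, Nat.cast_two,
      ← coe_edgeFinset, Set.ncard_coe_finset]
  unfold averageDegree
  rw [h2, Nat.card_eq_fintype_card, div_le_iff₀ (by exact_mod_cast Fintype.card_pos)]
  exact h1

end Pool.Agent.Results.MP_34cda4_co.PivotMinorLinear
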