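import Pool.Agent.Helper32.Piv.Tree2

/-!
# Linear average degree bounds are preserved by decompositions of bounded cut-rank

`LinearBound c G` says that for every `s` the induced subgraphs of `G` without `K_{s,s}` have
average degree at most `c * s`. `Built Φ q G X` says that the set `X` of vertices of `G` has a
recursive (tree-like) decomposition into parts `Y` whose vertices have at most `q` different
neighbourhoods outside of `Y` (for a part of cut-rank `r` there are at most `2 ^ r` of them), such
that at every node of the decomposition the adjacencies between different parts are those of a
graph with property `Φ`.
-/

set_option autoImplicit false

namespace Pool.Agent.Results.MP_34cda4_co.TreeClosure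

open Pool.Agent.Helper32.Piv

/-- If the graph `G` has a decomposition into parts with at most `q` outer neighbourhoods, all of
whose node graphs satisfy the linear bound with the constant `c`, then `G` satisfies the linear
bound with the constant `5 + 2 * q + c * (q + 3) * (1 + 2 * q)`. -/
theorem result {E : Type*} [Fintype E] (c q : ℕ) (G : SimpleGraph E)
    (h : Built (LinearBound c) q G Finset.univ) :
    LinearBound (5 + 2 * q + c * (q + 3) * (1 + 2 * q)) G :=
  linearBound_of_built h

end Pool.Agent.Results.MP_34cda4_co.TreeClosure
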